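import Pool.Agent.K1H27.TP.Stm

/-! Piece IBP of the project TP. -/

set_option autoImplicit false

namespace Pool.Agent.K1H59.TP

open MeasureTheory Set

theorem t_IBP : Pool.Agent.K1H27.TP.S_IBP := by
  intro a b M ψ g hab hM hg hlip hM1 hMg hψ hψ1
  have hle : a ≤ b := hab.le
  obtain ⟨T, hT⟩ : ∃ T, T = ∫ x in a..b, ψ x := ⟨_, rfl⟩
  rw [← hT]
  have iψ : ∀ u v : ℝ, IntervalIntegrable ψ volume u v := by
    intro u v
    rw [intervalIntegrable_iff]
    have hfin : volume (uIoc u v) < ⊤ := by
      rw [uIoc]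
      exact measure_Ioc_lt_top
    refine Measure.integrableOn_of_bounded (M := 1) hfin.ne hψ.aestronglyMeasurable ?_
    exact Filter.Eventually.of_forall fun x => by rw [Real.norm_eq_abs]; exact hψ1 x
  have iM : ∀ u v : ℝ, IntervalIntegrable M volume u v := fun u v => hM.intervalIntegrable u v
  obtain ⟨w, hw⟩ : ∃ w : ℝ → ℝ, w = fun x => T * M x - ψ x := ⟨_, rfl⟩
  have iw : ∀ u v : ℝ, IntervalIntegrable w volume u v := by
    intro u v
    rw [hw]
    exact ((iM u v).const_mul T).sub (iψ u v)
  obtain ⟨W, hW⟩ : ∃ W : ℝ → ℝ, W = fun t => ∫ x in a..t, w x := ⟨_, rfl⟩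
  have hWt : ∀ t, W t = T * (∫ x in a..t, M x) - ∫ x in a..t, ψ x := by
    intro t
    rw [hW, hw]
    simp only
    rw [intervalIntegral.integral_sub ((iM a t).const_mul T) (iψ a t),
      intervalIntegral.integral_const_mul]
  have acW : AbsolutelyContinuousOnInterval W a b := by
    rw [hW]
    exact (iw a b).absolutelyContinuousOnInterval_intervalIntegral left_mem_uIcc
  have hlip2 : LipschitzOnWith 1 g (Icc a b) := by
    apply LipschitzOnWith.of_dist_le_mul
    intro x hx y hy
    rw [Real.dist_eq, Real.dist_eq, NNReal.coe_one, one_mul]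
    exact hlip x hx y hy
  have acg : AbsolutelyContinuousOnInterval g a b := by
    apply LipschitzOnWith.absolutelyContinuousOnInterval (K := 1)
    rw [uIcc_of_le hle]
    exact hlip2
  have ibp := acW.integral_mul_deriv_eq_deriv_mul acg
  have hWa : W a = 0 := by rw [hWt]; simp
  have hWb : W b = 0 := by rw [hWt, hM1, ← hT]; ring
  have e1 : ∫ x in a..b, deriv W x * g x = ∫ x in a..b, w x * g x := by
    apply intervalIntegral.integral_congr_ae
    filter_upwards [(iw a b).ae_hasDerivAt_integral] with x hx hxi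
    have h1 := hx (uIoc_subset_uIcc hxi) a left_mem_uIcc
    have h2 : deriv W x = w x := by
      rw [hW]
      exact h1.deriv
    rw [h2]
  have e2 : ∫ x in a..b, w x * g x = -∫ x in a..b, ψ x * g x := by
    have h1 : (fun x => w x * g x) = fun x => T * (M x * g x) - ψ x * g x := by
      funext x
      rw [hw]
      ring
    rw [h1, intervalIntegral.integral_sub, intervalIntegral.integral_const_mul, hMg]
    · ring
    · exact ((hM.mul hg).intervalIntegrable a b).const_mul T
    · exact (iψ a b).mul_continuousOn hg.continuousOn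
  rw [hWa, hWb, e1, e2] at ibp
  have e3 : ∫ x in a..b, ψ x * g x = ∫ x in a..b, W x * deriv g x := by
    rw [ibp]; ring
  have hWc : ContinuousOn W (uIcc a b) := acW.continuousOn
  rw [e3]
  have e4 : (fun t => |T * (∫ x in a..t, M x) - ∫ x in a..t, ψ x|) = fun t => |W t| := by
    funext t
    rw [hWt]
  rw [e4]
  apply intervalIntegral.integral_mono_on_of_le_Ioo hle
  · exact acg.intervalIntegrable_deriv.continuousOn_mul hWc
  · exact hWc.abs.intervalIntegrable
  · intro x hx
    have h1 : ‖deriv g x‖ ≤ ((1 : NNReal) : ℝ) :=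
      norm_deriv_le_of_lipschitzOn (Icc_mem_nhds hx.1 hx.2) hlip2
    rw [NNReal.coe_one, Real.norm_eq_abs] at h1
    calc W x * deriv g x ≤ |W x * deriv g x| := le_abs_self _
      _ = |W x| * |deriv g x| := abs_mul _ _
      _ ≤ |W x| * 1 := mul_le_mul_of_nonneg_left h1 (abs_nonneg _)
      _ = |W x| := mul_one _

end Pool.Agent.K1H59.TP
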