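import Pool.Agent.K1H59.TP.Ibp

/-! Piece KL of the project TP (by a potential function for the parallelogram inequality). -/

set_option autoImplicit false

namespace Pool.Agent.K1H59.TP

open MeasureTheory Set

theorem par (u v p : ℝ) (η : ℝ → ℝ) (huv : u < v) (hη : Measurable η) (h0 : ∀ x, 0 ≤ η x)
    (h1 : ∀ x, η x ≤ 1) (hp0 : 0 ≤ p) (hp1 : p ≤ 1) (hp : ∫ x in u..v, η x = p * (v - u)) :
    ∫ t in u..v, |∫ x in u..t, (η x - p)| ≤ p * (1 - p) * (v - u) ^ 2 / 2 := by
  have hle := huv.le
  obtain ⟨ζ, hζ⟩ : ∃ ζ : ℝ → ℝ, ζ = fun x => η x - p := ⟨_, rfl⟩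
  have hζm : Measurable ζ := by rw [hζ]; exact hη.sub_const p
  have hζlo : ∀ x, -p ≤ ζ x := fun x => by rw [hζ]; have := h0 x; simp only; linarith
  have hζhi : ∀ x, ζ x ≤ 1 - p := fun x => by rw [hζ]; have := h1 x; simp only; linarith
  have hζ1 : ∀ x, |ζ x| ≤ 1 := fun x => abs_le.mpr ⟨by linarith [hζlo x], by linarith [hζhi x]⟩
  have iζ : ∀ s t : ℝ, IntervalIntegrable ζ volume s t := by
    intro s t
    rw [intervalIntegrable_iff]
    have hfin : volume (uIoc s t) < ⊤ := by
      rw [uIoc]
      exact measure_Ioc_lt_top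
    refine Measure.integrableOn_of_bounded (M := 1) hfin.ne hζm.aestronglyMeasurable ?_
    exact Filter.Eventually.of_forall fun x => by rw [Real.norm_eq_abs]; exact hζ1 x
  obtain ⟨φ, hφ⟩ : ∃ φ : ℝ → ℝ, φ = fun t => ∫ x in u..t, ζ x := ⟨_, rfl⟩
  have hsub : ∀ s t, φ t - φ s = ∫ x in s..t, ζ x := by
    intro s t
    rw [hφ]
    exact intervalIntegral.integral_interval_sub_left (iζ u t) (iζ u s)
  have hφu : φ u = 0 := by rw [hφ]; simp
  have iη : IntervalIntegrable η volume u v := by
    have : η = fun x => ζ x + p := by funext x; rw [hζ]; ring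
    rw [this]
    exact (iζ u v).add intervalIntegrable_const
  have hφv : φ v = 0 := by
    rw [hφ, hζ]
    simp only
    rw [intervalIntegral.integral_sub iη intervalIntegrable_const, hp,
      intervalIntegral.integral_const, smul_eq_mul]
    ring
  have hφlip : ∀ s t, |φ s - φ t| ≤ |s - t| := by
    intro s t
    rw [hsub t s]
    have h2 := intervalIntegral.norm_integral_le_of_norm_le_const (a := t) (b := s) (f := ζ)
      (C := 1) (fun x _ => by rw [Real.norm_eq_abs]; exact hζ1 x)
    rw [Real.norm_eq_abs, one_mul] at h2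
    exact h2
  have hφup : ∀ t ∈ Icc u v, φ t ≤ p * (v - t) := by
    intro t ht
    have h2 := hsub t v
    rw [hφv] at h2
    have h3 : ∫ x in t..v, (-p) ≤ ∫ x in t..v, ζ x :=
      intervalIntegral.integral_mono_on ht.2 intervalIntegrable_const (iζ t v)
        (fun x _ => hζlo x)
    rw [intervalIntegral.integral_const, smul_eq_mul] at h3
    linarith
  have hφlo : ∀ t ∈ Icc u v, -φ t ≤ (1 - p) * (v - t) := by
    intro t ht
    have h2 := hsub t v
    rw [hφv] at h2
    have h3 : ∫ x in t..v, ζ x ≤ ∫ x in t..v, (1 - p) :=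
      intervalIntegral.integral_mono_on ht.2 (iζ t v) intervalIntegrable_const
        (fun x _ => hζhi x)
    rw [intervalIntegral.integral_const, smul_eq_mul] at h3
    linarith
  obtain ⟨P, hP⟩ : ∃ P : ℝ → ℝ, P = fun t => max (φ t) 0 := ⟨_, rfl⟩
  obtain ⟨N, hN⟩ : ∃ N : ℝ → ℝ, N = fun t => max (-φ t) 0 := ⟨_, rfl⟩
  have mklip : ∀ f : ℝ → ℝ, (∀ s t, |f s - f t| ≤ |s - t|) →
      AbsolutelyContinuousOnInterval f u v := by
    intro f hf
    apply LipschitzOnWith.absolutelyContinuousOnInterval (K := 1)
    apply LipschitzOnWith.of_dist_le_mul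
    intro x _ y _
    rw [Real.dist_eq, Real.dist_eq, NNReal.coe_one, one_mul]
    exact hf x y
  have acφ := mklip φ hφlip
  have acP : AbsolutelyContinuousOnInterval P u v := by
    apply mklip
    intro s t
    rw [hP]
    exact (abs_max_sub_max_le_abs _ _ _).trans (hφlip s t)
  have acN : AbsolutelyContinuousOnInterval N u v := by
    apply mklip
    intro s t
    rw [hN]
    refine (abs_max_sub_max_le_abs _ _ _).trans ?_
    have e : -φ s - -φ t = -(φ s - φ t) := by ring
    rw [e, abs_neg]
    exact hφlip s t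
  obtain ⟨τ, hτ⟩ : ∃ τ : ℝ → ℝ, τ = fun t => v - t := ⟨_, rfl⟩
  have acτ : AbsolutelyContinuousOnInterval τ u v := by
    apply mklip
    intro s t
    rw [hτ]
    have e : (v - s) - (v - t) = -(s - t) := by ring
    simp only
    rw [e, abs_neg]
  obtain ⟨V, hV⟩ : ∃ V : ℝ → ℝ, V = fun t => (p * (1 - p) / 2) * (τ t * τ t) -
      (1 / 2) * (φ t * φ t) + (p * P t + (1 - p) * N t) * τ t := ⟨_, rfl⟩
  have acV : AbsolutelyContinuousOnInterval V u v := by
    rw [hV]
    exact (((acτ.fun_mul acτ).const_mul _).fun_sub ((acφ.fun_mul acφ).const_mul _)).fun_add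
      (((acP.const_mul p).fun_add (acN.const_mul (1 - p))).fun_mul acτ)
  have hfund := acV.integral_deriv_eq_sub
  have hVv : V v = 0 := by
    rw [hV, hτ]
    simp only
    rw [hφv]
    ring
  have hVu : V u = p * (1 - p) * (v - u) ^ 2 / 2 := by
    rw [hV, hτ, hP, hN]
    simp only
    rw [hφu]
    simp
    ring
  have hder : ∀ᵐ t, t ∈ Ioc u v → deriv V t ≤ -|φ t| := by
    have hne : ∀ᵐ t : ℝ, t ≠ v := by
      simp [ae_iff, measure_singleton]
    filter_upwards [(iζ u v).ae_hasDerivAt_integral, acP.ae_differentiableAt,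
      acN.ae_differentiableAt, hne] with t ht1 ht2 ht3 ht4 ht
    have htI : t ∈ uIcc u v := by rw [uIcc_of_le hle]; exact Ioc_subset_Icc_self ht
    have htI' : t ∈ Icc u v := Ioc_subset_Icc_self ht
    have dφ : HasDerivAt φ (ζ t) t := by
      rw [hφ]
      exact ht1 htI u left_mem_uIcc
    have dP := (ht2 htI).hasDerivAt
    have dN := (ht3 htI).hasDerivAt
    have dτ : HasDerivAt τ (-1) t := by
      rw [hτ]
      simpa using (hasDerivAt_id t).const_sub v
    have dV : HasDerivAt V ((p * (1 - p) / 2) * ((-1) * τ t + τ t * (-1)) -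
        (1 / 2) * (ζ t * φ t + φ t * ζ t) +
        ((p * deriv P t + (1 - p) * deriv N t) * τ t + (p * P t + (1 - p) * N t) * (-1))) t := by
      rw [hV]
      exact (((dτ.mul dτ).const_mul _).sub ((dφ.mul dφ).const_mul _)).add
        (((dP.const_mul p).add (dN.const_mul (1 - p))).mul dτ)
    rw [dV.deriv]
    have hτt : τ t = v - t := by rw [hτ]
    have hτ0 : 0 ≤ τ t := by rw [hτt]; linarith [ht.2]
    have hup := hφup t htI'
    have hlo := hφlo t htI'
    rw [← hτt] at hup hlo
    have hcont : ContinuousAt φ t := dφ.continuousAt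
    rcases lt_trichotomy (φ t) 0 with hc | hc | hc
    · have e1 : P =ᶠ[nhds t] fun _ => 0 := by
        filter_upwards [hcont.eventually (gt_mem_nhds hc)] with s hs
        rw [hP]
        exact max_eq_right hs.le
      have e2 : N =ᶠ[nhds t] fun s => -φ s := by
        filter_upwards [hcont.eventually (gt_mem_nhds hc)] with s hs
        rw [hN]
        exact max_eq_left (by linarith)
      have d1 : deriv P t = 0 := by rw [e1.deriv_eq]; simp
      have d2 : deriv N t = -ζ t := by rw [e2.deriv_eq]; exact dφ.neg.deriv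
      have v1 : P t = 0 := e1.self_of_nhds
      have v2 : N t = -φ t := e2.self_of_nhds
      rw [d1, d2, v1, v2, abs_of_neg hc]
      have h5 := hζlo t
      have h6 : 0 ≤ (1 - p) * τ t + φ t := by linarith
      nlinarith [mul_nonneg h6 (by linarith : 0 ≤ p + ζ t)]
    · have e1 : IsLocalMin P t := by
        apply Filter.Eventually.of_forall
        intro s
        rw [hP]
        simp only
        rw [hc]
        simp
      have e2 : IsLocalMin N t := by
        apply Filter.Eventually.of_forall
        intro s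
        rw [hN]
        simp only
        rw [hc]
        simp
      have v1 : P t = 0 := by rw [hP]; simp only; rw [hc]; simp
      have v2 : N t = 0 := by rw [hN]; simp only; rw [hc]; simp
      rw [e1.deriv_eq_zero, e2.deriv_eq_zero, v1, v2, hc]
      have h7 : 0 ≤ p * (1 - p) * τ t := by
        apply mul_nonneg (mul_nonneg hp0 (by linarith)) hτ0
      simp
      nlinarith
    · have e1 : P =ᶠ[nhds t] φ := by
        filter_upwards [hcont.eventually (lt_mem_nhds hc)] with s hs
        rw [hP]
        exact max_eq_left hs.le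
      have e2 : N =ᶠ[nhds t] fun _ => 0 := by
        filter_upwards [hcont.eventually (lt_mem_nhds hc)] with s hs
        rw [hN]
        exact max_eq_right (by linarith)
      have d1 : deriv P t = ζ t := by rw [e1.deriv_eq]; exact dφ.deriv
      have d2 : deriv N t = 0 := by rw [e2.deriv_eq]; simp
      have v1 : P t = φ t := e1.self_of_nhds
      have v2 : N t = 0 := e2.self_of_nhds
      rw [d1, d2, v1, v2, abs_of_pos hc]
      have h5 := hζhi t
      have h6 : 0 ≤ p * τ t - φ t := by linarith
      nlinarith [mul_nonneg h6 (by linarith : 0 ≤ 1 - p - ζ t)]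
  have hmono : ∫ t in u..v, deriv V t ≤ ∫ t in u..v, -|φ t| := by
    rw [intervalIntegral.integral_of_le hle, intervalIntegral.integral_of_le hle]
    apply integral_mono_ae
    · exact (intervalIntegrable_iff_integrableOn_Ioc_of_le hle).mp acV.intervalIntegrable_deriv
    · exact (intervalIntegrable_iff_integrableOn_Ioc_of_le hle).mp
        (acφ.continuousOn.abs.neg.intervalIntegrable)
    · exact (ae_restrict_iff' measurableSet_Ioc).mpr hder
  rw [hfund, hVv, hVu, intervalIntegral.integral_neg] at hmono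
  have e : (fun t => |∫ x in u..t, (η x - p)|) = fun t => |φ t| := by
    funext t
    rw [hφ, hζ]
  rw [e]
  linarith

theorem t_KL : Pool.Agent.K1H27.TP.S_KL := by
  intro u v h η huv hlip hc hmean hη h0 h1
  have hl : 0 < v - u := by linarith
  have iη : IntervalIntegrable η volume u v := by
    rw [intervalIntegrable_iff]
    have hfin : volume (uIoc u v) < ⊤ := by
      rw [uIoc]
      exact measure_Ioc_lt_top
    refine Measure.integrableOn_of_bounded (M := 1) hfin.ne hη.aestronglyMeasurable ?_
    exact Filter.Eventually.of_forall fun x => by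
      rw [Real.norm_eq_abs]; exact abs_le.mpr ⟨by linarith [h0 x], h1 x⟩
  obtain ⟨A, hA⟩ : ∃ A, A = ∫ x in u..v, η x := ⟨_, rfl⟩
  have hA0 : 0 ≤ A := by
    rw [hA]
    exact intervalIntegral.integral_nonneg huv.le fun x _ => h0 x
  have hA1 : A ≤ v - u := by
    have h2 : ∫ x in u..v, η x ≤ ∫ x in u..v, (1 : ℝ) :=
      intervalIntegral.integral_mono_on huv.le iη intervalIntegrable_const (fun x _ => h1 x)
    rw [intervalIntegral.integral_const, smul_eq_mul, mul_one] at h2
    rw [hA]
    exact h2
  obtain ⟨p, hp⟩ : ∃ p, p = A / (v - u) := ⟨_, rfl⟩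
  have hpA : p * (v - u) = A := by rw [hp]; field_simp
  have hp0 : 0 ≤ p := by rw [hp]; positivity
  have hp1 : p ≤ 1 := by rw [hp, div_le_one hl]; exact hA1
  have hpar := par u v p η huv hη h0 h1 hp0 hp1 (by rw [hpA, hA])
  have hib := t_IBP u v (fun _ => 1 / (v - u)) η h huv continuous_const hc hlip
    (by rw [intervalIntegral.integral_const, smul_eq_mul]; field_simp)
    (by rw [intervalIntegral.integral_const_mul, hmean, mul_zero]) hη
    (fun x => abs_le.mpr ⟨by linarith [h0 x], h1 x⟩)
  rw [← hA] at hib ⊢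
  refine hib.trans ?_
  have e1 : ∀ t ∈ Icc u v, |A * (∫ x in u..t, (1 / (v - u) : ℝ)) - ∫ x in u..t, η x| =
      |∫ x in u..t, (η x - p)| := by
    intro t ht
    have iηt : IntervalIntegrable η volume u t :=
      iη.mono_set (by rw [uIcc_of_le huv.le, uIcc_of_le ht.1]; exact Icc_subset_Icc_right ht.2)
    rw [intervalIntegral.integral_sub iηt intervalIntegrable_const,
      intervalIntegral.integral_const, intervalIntegral.integral_const, smul_eq_mul, smul_eq_mul,
      ← abs_neg]
    congr 1
    rw [hp]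
    ring
  have e2 : ∫ t in u..v, |A * (∫ x in u..t, (1 / (v - u) : ℝ)) - ∫ x in u..t, η x| =
      ∫ t in u..v, |∫ x in u..t, (η x - p)| := by
    apply intervalIntegral.integral_congr
    intro t ht
    rw [uIcc_of_le huv.le] at ht
    exact e1 t ht
  rw [e2]
  refine hpar.trans (le_of_eq ?_)
  have e3 : p * (1 - p) * (v - u) ^ 2 = A * (v - u - A) := by
    rw [← hpA]
    ring
  rw [e3]

end Pool.Agent.K1H59.TP
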